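import Pool.Agent.Helper14.TH7.StD

/-!
# Project TH7, module Cnt: counting the index sets
-/

set_option autoImplicit false

namespace Pool.Agent.Helper88.TH7

open Pool.Agent.Helper14.TH7 Pool.Agent.Helper84.S7
open Pool.Agent.Helper93.TLE (DDE)
open Pool.Agent.Helper76.TH7 (ddH7)

/-- Counting the numbers below `c`. -/
private theorem inner (A c : ℕ) (h : c ≤ A) :
    (∑ i ∈ Finset.range A, if i < c then 1 else 0) = c := by
  rw [← Finset.sum_filter, Finset.sum_const, smul_eq_mul, mul_one]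
  have : (Finset.range A).filter (fun i => i < c) = Finset.range c := by
    ext i
    simp only [Finset.mem_filter, Finset.mem_range]
    omega
  rw [this, Finset.card_range]

/-- Gauss. -/
private theorem gauss (M : ℕ) : (∑ j ∈ Finset.range M, (M - j)) * 2 = M * (M + 1) := by
  induction M with
  | zero => simp
  | succ M ih =>
    rw [Finset.sum_range_succ']
    have h : (∑ k ∈ Finset.range M, (M + 1 - (k + 1))) = ∑ k ∈ Finset.range M, (M - k) :=
      Finset.sum_congr rfl fun k _ => by omega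
    rw [h, add_mul, ih]
    simp only [Nat.sub_zero]
    ring

/-- Terms `g (M - j)` with `g 0 = 0` vanish beyond `M`. -/
private theorem cut (g : ℕ → ℕ) (hg : g 0 = 0) (B M : ℕ) (h : M ≤ B) :
    ∑ j ∈ Finset.range B, g (M - j) = ∑ j ∈ Finset.range M, g (M - j) := by
  symm
  apply Finset.sum_subset
  · intro j hj
    simp only [Finset.mem_range] at hj ⊢
    omega
  · intro j _ hj
    simp only [Finset.mem_range] at hj
    rw [Nat.sub_eq_zero_of_le (by omega), hg]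

/-- The sum of the `7 (M - j) - e`. -/
private theorem sum7 (M e : ℕ) (he : e ≤ 7) :
    (∑ j ∈ Finset.range M, (7 * (M - j) - e)) * 2 + 2 * e * M = 7 * (M * (M + 1)) := by
  have h : (∑ j ∈ Finset.range M, (7 * (M - j) - e)) + ∑ j ∈ Finset.range M, e =
      7 * ∑ j ∈ Finset.range M, (M - j) := by
    rw [Finset.mul_sum, ← Finset.sum_add_distrib]
    apply Finset.sum_congr rfl
    intro j hj
    rw [Finset.mem_range] at hj
    omega
  have h2 : (∑ j ∈ Finset.range M, e) = M * e := by simp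
  rw [h2] at h
  have hg := gauss M
  nlinarith

/-- Splitting off the first coordinate. -/
private theorem split6 (A : ℕ) (p : ℕ → ℕ → ℕ → Prop) [∀ c i j, Decidable (p c i j)] :
    ((Finset.range 6 ×ˢ Finset.range A ×ˢ Finset.range A).filter
      fun t : ℕ × ℕ × ℕ => p t.1 t.2.1 t.2.2).card =
      (((((∑ j ∈ Finset.range A, ∑ i ∈ Finset.range A, if p 0 i j then 1 else 0) +
      ∑ j ∈ Finset.range A, ∑ i ∈ Finset.range A, if p 1 i j then 1 else 0) +
      ∑ j ∈ Finset.range A, ∑ i ∈ Finset.range A, if p 2 i j then 1 else 0) +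
      ∑ j ∈ Finset.range A, ∑ i ∈ Finset.range A, if p 3 i j then 1 else 0) +
      ∑ j ∈ Finset.range A, ∑ i ∈ Finset.range A, if p 4 i j then 1 else 0) +
      ∑ j ∈ Finset.range A, ∑ i ∈ Finset.range A, if p 5 i j then 1 else 0 := by
  rw [Finset.card_filter, Finset.sum_product, Finset.sum_range_succ, Finset.sum_range_succ,
    Finset.sum_range_succ, Finset.sum_range_succ, Finset.sum_range_succ, Finset.sum_range_one,
    Finset.sum_product_right, Finset.sum_product_right, Finset.sum_product_right,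
    Finset.sum_product_right, Finset.sum_product_right, Finset.sum_product_right]

/-- Pairs with `e + i + j < M + e`. -/
private theorem pairs (A M e : ℕ) (h : M ≤ A) :
    (∑ j ∈ Finset.range A, ∑ i ∈ Finset.range A, if e + i + j < M + e then 1 else 0) * 2 =
      M * (M + 1) := by
  rw [← gauss M, ← cut (fun x => x) rfl A M h]
  congr 1
  apply Finset.sum_congr rfl
  intro j _
  rw [← inner A (M - j) (by omega)]
  apply Finset.sum_congr rfl
  intro i _
  by_cases h : e + i + j < M + e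
  · rw [if_pos h, if_pos (by omega)]
  · rw [if_neg h, if_neg (by omega)]

/-- Pairs with `e + i + 7 j < 7 M`. -/
private theorem pairs7 (A M e : ℕ) (he : e ≤ 7) (h : 7 * M ≤ A) :
    (∑ j ∈ Finset.range A, ∑ i ∈ Finset.range A, if e + i + 7 * j < 7 * M then 1 else 0) * 2 +
      2 * e * M = 7 * (M * (M + 1)) := by
  rw [← sum7 M e he, ← cut (fun x => 7 * x - e) (by simp) A M (by omega)]
  congr 2
  apply Finset.sum_congr rfl
  intro j _
  rw [← inner A (7 * (M - j) - e) (by omega)]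
  apply Finset.sum_congr rfl
  intro i _
  by_cases h : e + i + 7 * j < 7 * M
  · rw [if_pos h, if_pos (by omega)]
  · rw [if_neg h, if_neg (by omega)]

private theorem dd_odd (m : ℕ) : ddH7 (2 * m + 3) = 18 * 49 ^ m + 6 * 7 ^ m := by
  unfold ddH7
  rw [if_pos (by omega)]
  have h : (2 * m + 3) / 2 - 1 = m := by omega
  rw [h]

private theorem dd_even (m : ℕ) : ddH7 (2 * m + 4) = 126 * 49 ^ m := by
  unfold ddH7
  rw [if_neg (by omega)]
  have h : (2 * m + 4) / 2 - 2 = m := by omega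
  rw [h]

private theorem DD_succ (n : ℕ) (hn : 2 ≤ n) : DDE 4 ddH7 (n + 1) = DDE 4 ddH7 n + ddH7 (n + 1) := by
  unfold DDE
  rw [Finset.sum_Ico_succ_top (by omega), add_assoc]

private theorem sq49 (m : ℕ) : (49 : ℕ) ^ m = 7 ^ m * 7 ^ m := by
  rw [← mul_pow]
  norm_num

private theorem DD_evenOdd (m : ℕ) : DDE 4 ddH7 (2 * m + 2) = 3 * (7 ^ m * 7 ^ m) + 7 ^ m ∧
    DDE 4 ddH7 (2 * m + 3) = 21 * (7 ^ m * 7 ^ m) + 7 * 7 ^ m := by
  induction m with
  | zero => decide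
  | succ m ih =>
    have h1 : DDE 4 ddH7 (2 * (m + 1) + 2) = 3 * (7 ^ (m + 1) * 7 ^ (m + 1)) + 7 ^ (m + 1) := by
      rw [show 2 * (m + 1) + 2 = (2 * m + 3) + 1 by ring, DD_succ _ (by omega), ih.2,
        show 2 * m + 3 + 1 = 2 * m + 4 by ring, dd_even, sq49, pow_succ]
      ring
    refine ⟨h1, ?_⟩
    rw [show 2 * (m + 1) + 3 = (2 * (m + 1) + 2) + 1 by ring, DD_succ _ (by omega), h1,
      show 2 * (m + 1) + 2 + 1 = 2 * (m + 1) + 3 by ring, dd_odd, sq49]
    ring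

private theorem ae_bound (c i j t : ℕ) (hc : c < 6) (h : abH c + i + j < t) :
    aeH c + i + 7 * j < 7 * t := by
  unfold abH at h
  unfold aeH
  split_ifs at h ⊢ <;> omega

private theorem ab_le_ae (c : ℕ) : abH c ≤ aeH c := by
  unfold abH aeH
  split_ifs <;> omega

/-- CNT. -/
theorem hCnt : TCnt := by
  constructor
  · intro k hk
    obtain ⟨m, rfl⟩ : ∃ m, k = m + 1 := ⟨k - 1, by omega⟩
    have hq : (7 : ℕ) ^ (m + 1) = 7 * 7 ^ m := by rw [pow_succ]; ring
    have hpos : 1 ≤ (7 : ℕ) ^ m := Nat.one_le_pow _ _ (by norm_num)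
    have h3 : ((Finset.range 6 ×ˢ Finset.range (7 ^ (m + 1)) ×ˢ Finset.range (7 ^ (m + 1))).filter
        fun t : ℕ × ℕ × ℕ => aeH t.1 + t.2.1 + 7 * t.2.2 < 7 ^ (m + 1) ∧
          abH t.1 + t.2.1 + t.2.2 < 7 ^ (m + 1 - 1)) =
        ((Finset.range 6 ×ˢ Finset.range (7 ^ (m + 1)) ×ˢ Finset.range (7 ^ (m + 1))).filter
        fun t : ℕ × ℕ × ℕ => abH t.1 + t.2.1 + t.2.2 < 7 ^ m) := by
      apply Finset.filter_congr
      intro t ht
      rw [Finset.mem_product, Finset.mem_range] at ht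
      rw [hq, show m + 1 - 1 = m by omega]
      exact ⟨fun h => h.2, fun h => ⟨ae_bound _ _ _ _ ht.1 h, h⟩⟩
    rw [h3, split6 (7 ^ (m + 1)) (fun c i j => abH c + i + j < 7 ^ m)]
    have a0 : abH 0 = 0 := rfl
    have a1 : abH 1 = 0 := rfl
    have a2 : abH 2 = 0 := rfl
    have a3 : abH 3 = 0 := rfl
    have a4 : abH 4 = 1 := rfl
    have a5 : abH 5 = 1 := rfl
    rw [a0, a1, a2, a3, a4, a5]
    have h7 : DDE 4 ddH7 (2 * (m + 1)) = 3 * (7 ^ m * 7 ^ m) + 7 ^ m := (DD_evenOdd m).1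
    rw [h7]
    obtain ⟨w, hw⟩ : ∃ w, 7 ^ m = w + 1 := ⟨7 ^ m - 1, by omega⟩
    have h4 := pairs (7 ^ (m + 1)) (w + 1) 0 (by omega)
    have h5 := pairs (7 ^ (m + 1)) w 1 (by omega)
    rw [add_zero] at h4
    rw [hw]
    generalize (∑ j ∈ Finset.range (7 ^ (m + 1)), ∑ i ∈ Finset.range (7 ^ (m + 1)),
      if 0 + i + j < w + 1 then 1 else 0) = x at h4 ⊢
    generalize (∑ j ∈ Finset.range (7 ^ (m + 1)), ∑ i ∈ Finset.range (7 ^ (m + 1)),
      if 1 + i + j < w + 1 then 1 else 0) = y at h5 ⊢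
    nlinarith
  · intro k hk
    obtain ⟨m, rfl⟩ : ∃ m, k = m + 1 := ⟨k - 1, by omega⟩
    have hq : (7 : ℕ) ^ (m + 1) = 7 * 7 ^ m := by rw [pow_succ]; ring
    have h3 : ((Finset.range 6 ×ˢ Finset.range (7 ^ (m + 1)) ×ˢ Finset.range (7 ^ (m + 1))).filter
        fun t : ℕ × ℕ × ℕ => aeH t.1 + t.2.1 + 7 * t.2.2 < 7 ^ (m + 1) ∧
          abH t.1 + t.2.1 + t.2.2 < 7 ^ (m + 1)) =
        ((Finset.range 6 ×ˢ Finset.range (7 ^ (m + 1)) ×ˢ Finset.range (7 ^ (m + 1))).filter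
        fun t : ℕ × ℕ × ℕ => aeH t.1 + t.2.1 + 7 * t.2.2 < 7 * 7 ^ m) := by
      apply Finset.filter_congr
      intro t _
      have h5 := ab_le_ae t.1
      rw [hq]
      constructor
      · intro h
        exact h.1
      · intro h
        constructor <;> omega
    rw [h3, split6 (7 ^ (m + 1)) (fun c i j => aeH c + i + 7 * j < 7 * 7 ^ m)]
    have a0 : aeH 0 = 0 := rfl
    have a1 : aeH 1 = 0 := rfl
    have a2 : aeH 2 = 2 := rfl
    have a3 : aeH 3 = 3 := rfl
    have a4 : aeH 4 = 4 := rfl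
    have a5 : aeH 5 = 5 := rfl
    rw [a0, a1, a2, a3, a4, a5]
    have h0 := pairs7 (7 ^ (m + 1)) (7 ^ m) 0 (by omega) (by omega)
    have h2 := pairs7 (7 ^ (m + 1)) (7 ^ m) 2 (by omega) (by omega)
    have h3' := pairs7 (7 ^ (m + 1)) (7 ^ m) 3 (by omega) (by omega)
    have h4 := pairs7 (7 ^ (m + 1)) (7 ^ m) 4 (by omega) (by omega)
    have h5 := pairs7 (7 ^ (m + 1)) (7 ^ m) 5 (by omega) (by omega)
    have h7 : DDE 4 ddH7 (2 * (m + 1) + 1) = 21 * (7 ^ m * 7 ^ m) + 7 * 7 ^ m := (DD_evenOdd m).2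
    rw [h7]
    generalize (∑ j ∈ Finset.range (7 ^ (m + 1)), ∑ i ∈ Finset.range (7 ^ (m + 1)),
      if 0 + i + 7 * j < 7 * 7 ^ m then 1 else 0) = x0 at h0 ⊢
    generalize (∑ j ∈ Finset.range (7 ^ (m + 1)), ∑ i ∈ Finset.range (7 ^ (m + 1)),
      if 2 + i + 7 * j < 7 * 7 ^ m then 1 else 0) = x2 at h2 ⊢
    generalize (∑ j ∈ Finset.range (7 ^ (m + 1)), ∑ i ∈ Finset.range (7 ^ (m + 1)),
      if 3 + i + 7 * j < 7 * 7 ^ m then 1 else 0) = x3 at h3' ⊢
    generalize (∑ j ∈ Finset.range (7 ^ (m + 1)), ∑ i ∈ Finset.range (7 ^ (m + 1)),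
      if 4 + i + 7 * j < 7 * 7 ^ m then 1 else 0) = x4 at h4 ⊢
    generalize (∑ j ∈ Finset.range (7 ^ (m + 1)), ∑ i ∈ Finset.range (7 ^ (m + 1)),
      if 5 + i + 7 * j < 7 * 7 ^ m then 1 else 0) = x5 at h5 ⊢
    generalize (7 : ℕ) ^ m = M at h0 h2 h3' h4 h5 ⊢
    nlinarith

end Pool.Agent.Helper88.TH7
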